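import Mathlib

/-!
# MP_b39627_an: monotone minorants with large derivative product, in every dimension

For every `m ≥ 1`, every `u` on the closed nonnegative orthant of `ℝ^m` which is nonnegative,
increasing in each variable and zero on the coordinate hyperplanes, and every `C > 0`, there is a
continuous minorant `ũ`, increasing in each variable, with `∂₁ũ ⋯ ∂ₘũ ≥ C` at every point where
`ũ` is differentiable and different from `u`.

Proof (Perron's method).  Let `G v = m (C v₁ ⋯ vₘ)^(1/m)`; it is superadditive on the orthant. Let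
`𝓕` be the class of the increasing `w` with `0 ≤ w ≤ u` such that for `h < w x` and `c < w x - h`
there is `y ≤ x` with `h ≤ w y` and `c ≤ G (x - y)`.  The supremum `ũ` of `𝓕` belongs to `𝓕`; this
forces continuity; and if `ũ x < u x`, then `max (ũ z) (min (ũ x + G (z - x)) (u x))` (`z ≥ x`)
gives a member of `𝓕`, so `ũ (x + v) ≥ ũ x + G v` for small `v ≥ 0`.
-/

set_option autoImplicit false

open Filter Topology

namespace Pool.Agent.Results.MP_b39627_an.MonotoneMinorant

variable {m : ℕ}

/-- The closed nonnegative orthant of `ℝ^m`. -/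
def Orthant (m : ℕ) : Set (Fin m → ℝ) := {x | ∀ i, 0 ≤ x i}

/-- `f` is increasing (non-decreasing) in each variable on the orthant, the other variables being
held fixed. -/
def IncreasingInEach (f : (Fin m → ℝ) → ℝ) : Prop :=
  ∀ x ∈ Orthant m, ∀ (i : Fin m) (t : ℝ), x i ≤ t → f x ≤ f (Function.update x i t)

/-- geometric mean -/
noncomputable def gm (v : Fin m → ℝ) : ℝ := (∏ i, v i) ^ ((m : ℝ)⁻¹)

lemma gm_nonneg {v : Fin m → ℝ} (hv : ∀ i, 0 ≤ v i) : 0 ≤ gm v :=
  Real.rpow_nonneg (Finset.prod_nonneg fun i _ => hv i) _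

lemma gm_zero (hm : 1 ≤ m) : gm (0 : Fin m → ℝ) = 0 := by
  unfold gm
  have h1 : ∏ i : Fin m, (0 : Fin m → ℝ) i = 0 :=
    Finset.prod_eq_zero (Finset.mem_univ (⟨0, hm⟩ : Fin m)) rfl
  rw [h1, Real.zero_rpow]
  have : (0 : ℝ) < m := by exact_mod_cast hm
  positivity

lemma gm_mono {v w : Fin m → ℝ} (hv : ∀ i, 0 ≤ v i) (h : ∀ i, v i ≤ w i) : gm v ≤ gm w := by
  unfold gm
  apply Real.rpow_le_rpow (Finset.prod_nonneg fun i _ => hv i)
  · exact Finset.prod_le_prod (fun i _ => hv i) fun i _ => h i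
  · positivity

lemma gm_smul (hm : 1 ≤ m) {t : ℝ} (ht : 0 ≤ t) {v : Fin m → ℝ} (hv : ∀ i, 0 ≤ v i) :
    gm (t • v) = t * gm v := by
  unfold gm
  have hm0 : (m : ℝ) ≠ 0 := by positivity
  simp only [Pi.smul_apply, smul_eq_mul]
  rw [Finset.prod_mul_distrib, Finset.prod_const, Finset.card_univ, Fintype.card_fin,
    Real.mul_rpow (pow_nonneg ht m) (Finset.prod_nonneg fun i _ => hv i),
    ← Real.rpow_natCast t m, ← Real.rpow_mul ht, mul_inv_cancel₀ hm0, Real.rpow_one]

/-- arithmetic-geometric mean inequality -/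
lemma gm_le_am (hm : 1 ≤ m) {v : Fin m → ℝ} (hv : ∀ i, 0 ≤ v i) :
    gm v ≤ (m : ℝ)⁻¹ * ∑ i, v i := by
  have hm0 : (0 : ℝ) < m := by exact_mod_cast hm
  have h := Real.geom_mean_le_arith_mean_weighted Finset.univ (fun _ : Fin m => (m : ℝ)⁻¹) v
    (fun _ _ => by positivity) (by simp [hm0.ne']) (fun i _ => hv i)
  rw [Real.finsetProd_rpow _ _ fun i _ => hv i, ← Finset.mul_sum] at h
  exact h

lemma gm_add (hm : 1 ≤ m) {v w : Fin m → ℝ} (hv : ∀ i, 0 ≤ v i) (hw : ∀ i, 0 ≤ w i) :
    gm v + gm w ≤ gm (v + w) := by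
  have hm0 : (0 : ℝ) < m := by exact_mod_cast hm
  by_cases h : ∀ i, 0 < v i + w i
  · have key : ∀ {a : Fin m → ℝ}, (∀ i, 0 ≤ a i) →
        gm a ≤ (m : ℝ)⁻¹ * (∑ i, a i / (v i + w i)) * gm (v + w) := by
      intro a ha
      have h1 : gm a = gm (fun i => a i / (v i + w i)) * gm (v + w) := by
        unfold gm
        simp only [Pi.add_apply]
        rw [← Real.mul_rpow (Finset.prod_nonneg fun i _ => div_nonneg (ha i) (h i).le)
          (Finset.prod_nonneg fun i _ => (h i).le), ← Finset.prod_mul_distrib]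
        congr 1
        refine Finset.prod_congr rfl fun i _ => ?_
        have := (h i).ne'
        field_simp
      rw [h1]
      exact mul_le_mul_of_nonneg_right
        (gm_le_am hm fun i => div_nonneg (ha i) (h i).le) (gm_nonneg fun i => (h i).le)
    have h1 := key hv
    have h2 := key hw
    have h3 : (m : ℝ)⁻¹ * (∑ i, v i / (v i + w i)) + (m : ℝ)⁻¹ * (∑ i, w i / (v i + w i)) = 1 := by
      rw [← mul_add, ← Finset.sum_add_distrib]
      have : ∀ i ∈ Finset.univ, v i / (v i + w i) + w i / (v i + w i) = 1 := by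
        intro i _
        rw [← add_div, div_self (h i).ne']
      rw [Finset.sum_congr rfl this]
      simp [hm0.ne']
    calc gm v + gm w ≤ ((m : ℝ)⁻¹ * (∑ i, v i / (v i + w i)) +
          (m : ℝ)⁻¹ * (∑ i, w i / (v i + w i))) * gm (v + w) := by rw [add_mul]; linarith
      _ = gm (v + w) := by rw [h3, one_mul]
  · push Not at h
    obtain ⟨i, hi⟩ := h
    have hvi : v i = 0 := by linarith [hv i, hw i]
    have hwi : w i = 0 := by linarith [hv i, hw i]
    have e1 : gm v = 0 := by
      unfold gm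
      rw [Finset.prod_eq_zero (Finset.mem_univ i) hvi, Real.zero_rpow (by positivity)]
    have e2 : gm w = 0 := by
      unfold gm
      rw [Finset.prod_eq_zero (Finset.mem_univ i) hwi, Real.zero_rpow (by positivity)]
    rw [e1, e2, add_zero]
    exact gm_nonneg fun j => add_nonneg (hv j) (hw j)

/-- `v_i ≤ δ`, all coordinates `≤ M` -/
lemma gm_le_of {v : Fin m → ℝ} (hv : ∀ i, 0 ≤ v i) {M δ : ℝ} (hM : ∀ i, v i ≤ M)
    (i : Fin m) (hδ : v i ≤ δ) : gm v ≤ (δ * M ^ (m - 1)) ^ ((m : ℝ)⁻¹) := by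
  unfold gm
  apply Real.rpow_le_rpow (Finset.prod_nonneg fun i _ => hv i)
  · rw [← Finset.mul_prod_erase Finset.univ v (Finset.mem_univ i)]
    apply mul_le_mul hδ _ (Finset.prod_nonneg fun i _ => hv i) ((hv i).trans hδ)
    have h1 : ∏ j ∈ Finset.univ.erase i, v j ≤ ∏ _j ∈ Finset.univ.erase i, M :=
      Finset.prod_le_prod (fun j _ => hv j) fun j _ => hM j
    rwa [Finset.prod_const, Finset.card_erase_of_mem (Finset.mem_univ i), Finset.card_univ,
      Fintype.card_fin] at h1
  · positivity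

/-- increasing in each variable implies monotone for the product order -/
lemma mono_of_each {f : (Fin m → ℝ) → ℝ} (hf : IncreasingInEach f) :
    ∀ x ∈ Orthant m, ∀ y, x ≤ y → f x ≤ f y := by
  intro x hx y hxy
  have key : ∀ s : Finset (Fin m), f x ≤ f (s.piecewise y x) ∧ s.piecewise y x ∈ Orthant m := by
    intro s
    induction s using Finset.induction_on with
    | empty => simpa using hx
    | insert a s ha ih =>
      obtain ⟨h1, h2⟩ := ih
      rw [Finset.piecewise_insert]
      refine ⟨h1.trans (hf _ h2 a (y a) ?_), ?_⟩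
      · rw [Finset.piecewise_eq_of_notMem _ _ _ ha]; exact hxy a
      · intro j
        by_cases hja : j = a
        · subst hja; rw [Function.update_self]; exact (hx _).trans (hxy _)
        · rw [Function.update_of_ne hja]; exact h2 j
  have := (key Finset.univ).1
  rwa [Finset.piecewise_univ] at this

section Perron

variable (u : (Fin m → ℝ) → ℝ) (k : ℝ)

/-- The class of admissible minorants. -/
def Cls : Set ((Fin m → ℝ) → ℝ) :=
  {w | (∀ x ∈ Orthant m, ∀ y, x ≤ y → w x ≤ w y) ∧ (∀ x ∈ Orthant m, 0 ≤ w x ∧ w x ≤ u x) ∧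
    ∀ x ∈ Orthant m, ∀ h : ℝ, 0 ≤ h → h < w x → ∀ c : ℝ, c < w x - h →
      ∃ y ∈ Orthant m, y ≤ x ∧ h ≤ w y ∧ c ≤ k * gm (x - y)}

/-- The largest admissible minorant. -/
noncomputable def sup (x : Fin m → ℝ) : ℝ := sSup ((fun w : (Fin m → ℝ) → ℝ => w x) '' Cls u k)

variable {u k}

lemma zero_mem (hu0 : ∀ x ∈ Orthant m, 0 ≤ u x) : (fun _ => (0 : ℝ)) ∈ Cls u k :=
  ⟨fun _ _ _ _ => le_rfl, fun x hx => ⟨le_rfl, hu0 x hx⟩,
    fun _ _ _ h0 h1 _ _ => absurd h1 (not_lt.2 h0)⟩

lemma bdd {x : Fin m → ℝ} (hx : x ∈ Orthant m) :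
    BddAbove ((fun w : (Fin m → ℝ) → ℝ => w x) '' Cls u k) := by
  refine ⟨u x, ?_⟩
  rintro _ ⟨w, hw, rfl⟩
  exact (hw.2.1 x hx).2

lemma ne (hu0 : ∀ x ∈ Orthant m, 0 ≤ u x) (x : Fin m → ℝ) :
    ((fun w : (Fin m → ℝ) → ℝ => w x) '' Cls u k).Nonempty :=
  ⟨0, (fun _ => (0 : ℝ)), zero_mem hu0, rfl⟩

lemma le_sup {w : (Fin m → ℝ) → ℝ} (hw : w ∈ Cls u k) {x : Fin m → ℝ} (hx : x ∈ Orthant m) :
    w x ≤ sup u k x := le_csSup (bdd hx) ⟨w, hw, rfl⟩

lemma lt_sup (hu0 : ∀ x ∈ Orthant m, 0 ≤ u x) {x : Fin m → ℝ} {a : ℝ} (h : a < sup u k x) :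
    ∃ w ∈ Cls u k, a < w x := by
  obtain ⟨_, ⟨w, hw, rfl⟩, h1⟩ := exists_lt_of_lt_csSup (ne (k := k) hu0 x) h
  exact ⟨w, hw, h1⟩

lemma orth_le {x y : Fin m → ℝ} (hx : x ∈ Orthant m) (h : x ≤ y) : y ∈ Orthant m :=
  fun i => (hx i).trans (h i)

lemma sup_mem (hu0 : ∀ x ∈ Orthant m, 0 ≤ u x) : sup u k ∈ Cls u k := by
  refine ⟨?_, ?_, ?_⟩
  · intro x hx y hxy
    apply csSup_le (ne hu0 _)
    rintro _ ⟨w, hw, rfl⟩
    exact (hw.1 x hx y hxy).trans (le_sup hw (orth_le hx hxy))
  · intro x hx
    refine ⟨le_sup (zero_mem hu0) hx, ?_⟩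
    apply csSup_le (ne hu0 _)
    rintro _ ⟨w, hw, rfl⟩
    exact (hw.2.1 x hx).2
  · intro x hx h h0 h1 c hc
    obtain ⟨w, hw, hwx⟩ := lt_sup hu0 (show max h (c + h) < sup u k x from
      max_lt h1 (by linarith))
    obtain ⟨y, hy, hyx, h2, h3⟩ := hw.2.2 x hx h h0 ((le_max_left _ _).trans_lt hwx) c
      (by have := (le_max_right h (c + h)).trans_lt hwx; linarith)
    exact ⟨y, hy, hyx, h2.trans (le_sup hw hy), h3⟩

/-- the lower bound above a point -/
lemma lift (hm : 1 ≤ m) (hk : 0 ≤ k) (hum : ∀ x ∈ Orthant m, ∀ y, x ≤ y → u x ≤ u y)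
    (hu0 : ∀ x ∈ Orthant m, 0 ≤ u x) {x : Fin m → ℝ} (hx : x ∈ Orthant m) {z : Fin m → ℝ}
    (hxz : x ≤ z) : min (sup u k x + k * gm (z - x)) (u x) ≤ sup u k z := by
  classical
  have hS := sup_mem (k := k) hu0
  have hS0 : ∀ x ∈ Orthant m, 0 ≤ sup u k x := fun x hx => (hS.2.1 x hx).1
  set b : (Fin m → ℝ) → ℝ := fun z =>
    if x ≤ z then min (sup u k x + k * gm (z - x)) (u x) else 0 with hb
  have hgn : ∀ z, x ≤ z → 0 ≤ k * gm (z - x) := fun z hz =>
    mul_nonneg hk (gm_nonneg fun i => sub_nonneg.2 (hz i))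
  have hb0 : ∀ z, 0 ≤ b z := by
    intro z
    simp only [hb]
    split_ifs with h
    · exact le_min (add_nonneg (hS0 x hx) (hgn z h)) (hu0 x hx)
    · exact le_rfl
  have hmem : (fun z => max (sup u k z) (b z)) ∈ Cls u k := by
    refine ⟨?_, ?_, ?_⟩
    · intro z hz z' hzz
      refine max_le_max (hS.1 z hz z' hzz) ?_
      by_cases h : x ≤ z
      · simp only [hb, if_pos h, if_pos (h.trans hzz)]
        refine min_le_min_right _ ?_
        have := gm_mono (v := z - x) (w := z' - x) (fun i => sub_nonneg.2 (h i))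
          (fun i => sub_le_sub_right (hzz i) _)
        have := mul_le_mul_of_nonneg_left this hk
        linarith
      · have : b z = 0 := by simp only [hb, if_neg h]
        rw [this]
        exact hb0 z'
    · intro z hz
      refine ⟨(hS0 z hz).trans (le_max_left _ _), max_le (hS.2.1 z hz).2 ?_⟩
      simp only [hb]
      split_ifs with h
      · exact (min_le_right _ _).trans (hum x hx z h)
      · exact hu0 z hz
    · intro z hz h h0 h1 c hc
      rcases le_total (b z) (sup u k z) with hle | hle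
      · simp only [max_eq_left hle] at h1 hc
        obtain ⟨y, hy, hyz, h2, h3⟩ := hS.2.2 z hz h h0 h1 c hc
        exact ⟨y, hy, hyz, h2.trans (le_max_left _ _), h3⟩
      · simp only [max_eq_right hle] at h1 hc
        have hxz' : x ≤ z := by
          by_contra hn
          have : b z = 0 := by simp only [hb, if_neg hn]
          linarith
        have hbz : b z = min (sup u k x + k * gm (z - x)) (u x) := by simp only [hb, if_pos hxz']
        have hbl : b z ≤ sup u k x + k * gm (z - x) := by rw [hbz]; exact min_le_left _ _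
        have hbr : b z ≤ u x := by rw [hbz]; exact min_le_right _ _
        rcases lt_or_ge h (sup u k x) with hc1 | hc1
        · obtain ⟨y, hy, hyx, h2, h3⟩ := hS.2.2 x hx h h0 hc1 (c - k * gm (z - x)) (by linarith)
          refine ⟨y, hy, hyx.trans hxz', h2.trans (le_max_left _ _), ?_⟩
          have h4 := gm_add hm (v := z - x) (w := x - y) (fun i => sub_nonneg.2 (hxz' i))
            (fun i => sub_nonneg.2 (hyx i))
          rw [sub_add_sub_cancel] at h4
          have h5 := mul_le_mul_of_nonneg_left h4 hk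
          rw [mul_add] at h5
          linarith
        · set g : ℝ := k * gm (z - x) with hg
          have hg0 : 0 < g := by linarith
          set t : ℝ := (h - sup u k x) / g with ht
          have ht0 : 0 ≤ t := div_nonneg (by linarith) hg0.le
          have ht1 : t ≤ 1 := by rw [ht, div_le_one hg0]; linarith
          have hzx : ∀ i, 0 ≤ (z - x) i := fun i => sub_nonneg.2 (hxz' i)
          have hy1 : x ≤ x + t • (z - x) := fun i => by
            simp only [Pi.add_apply, Pi.smul_apply, smul_eq_mul]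
            nlinarith [hzx i]
          have hy2 : x + t • (z - x) ≤ z := fun i => by
            have h2 := mul_le_mul_of_nonneg_right ht1 (hzx i)
            simp only [Pi.add_apply, Pi.smul_apply, smul_eq_mul, Pi.sub_apply] at h2 ⊢
            linarith
          have htg : t * g = h - sup u k x := by rw [ht]; field_simp
          refine ⟨x + t • (z - x), orth_le hx hy1, hy2, ?_, ?_⟩
          · refine le_trans ?_ (le_max_right _ _)
            simp only [hb, if_pos hy1]
            rw [add_sub_cancel_left, gm_smul hm ht0 hzx]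
            refine le_min ?_ (by linarith)
            have : k * (t * gm (z - x)) = t * g := by rw [hg]; ring
            rw [this, htg]
            linarith
          · have e1 : z - (x + t • (z - x)) = (1 - t) • (z - x) := by
              rw [sub_smul, one_smul]; abel
            rw [e1, gm_smul hm (by linarith) hzx]
            have : k * ((1 - t) * gm (z - x)) = g - t * g := by rw [hg]; ring
            rw [this, htg]
            linarith
  have h1 := le_sup hmem (orth_le hx hxz)
  have h2 : b z = min (sup u k x + k * gm (z - x)) (u x) := by simp only [hb, if_pos hxz]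
  rw [← h2]
  exact (le_max_right _ _).trans h1

/-- modulus of continuity -/
lemma modulus (hm : 1 ≤ m) (hk : 0 < k) (hu0 : ∀ x ∈ Orthant m, 0 ≤ u x) {x x' : Fin m → ℝ}
    (hx : x ∈ Orthant m) (hxx : x ≤ x') {M δ : ℝ} (hM : ∀ i, x' i ≤ M)
    (hδ : ∀ i, x' i - x i ≤ δ) :
    sup u k x' ≤ sup u k x + k * (δ * M ^ (m - 1)) ^ ((m : ℝ)⁻¹) := by
  have hS := sup_mem (k := k) hu0
  by_contra hcon
  push Not at hcon
  set ε : ℝ := k * (δ * M ^ (m - 1)) ^ ((m : ℝ)⁻¹) with hε
  have hx' := orth_le hx hxx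
  have i0 : Fin m := ⟨0, hm⟩
  have hM0 : 0 ≤ M := (hx' i0).trans (hM i0)
  have hδ0 : 0 ≤ δ := (sub_nonneg.2 (hxx i0)).trans (hδ i0)
  have hε0 : 0 ≤ ε := by positivity
  obtain ⟨h, h1, h2⟩ := exists_between (show sup u k x < sup u k x' - ε by linarith)
  obtain ⟨c, hc1, hc2⟩ := exists_between (show ε < sup u k x' - h by linarith)
  obtain ⟨y, hy, hyx, h3, h4⟩ := hS.2.2 x' hx' h ((hS.2.1 x hx).1.trans h1.le) (by linarith) c hc2
  have hyle : y ≤ x := by
    intro i
    by_contra hlt
    push Not at hlt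
    have h5 : (x' - y) i ≤ δ := by
      have := hδ i
      simp only [Pi.sub_apply]
      linarith
    have h6 := gm_le_of (v := x' - y) (fun j => sub_nonneg.2 (hyx j)) (M := M) (δ := δ)
      (fun j => by have := hM j; have := hy j; simp only [Pi.sub_apply]; linarith) i h5
    have h7 := mul_le_mul_of_nonneg_left h6 hk.le
    linarith
  have := hS.1 y hy x hyle
  linarith

lemma continuousOn_sup (hm : 1 ≤ m) (hk : 0 < k) (hu0 : ∀ x ∈ Orthant m, 0 ≤ u x) :
    ContinuousOn (sup u k) (Orthant m) := by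
  have hS := sup_mem (k := k) hu0
  intro x hx
  have hm0 : (0 : ℝ) < m := by exact_mod_cast hm
  set M : ℝ := ‖x‖ + 1 with hM
  have hM0 : 0 ≤ M := by positivity
  rw [ContinuousWithinAt, tendsto_iff_dist_tendsto_zero]
  have hlim : Tendsto (fun y : Fin m → ℝ => k * (‖y - x‖ * M ^ (m - 1)) ^ ((m : ℝ)⁻¹))
      (𝓝[Orthant m] x) (𝓝 0) := by
    have h1 : Continuous (fun y : Fin m → ℝ => k * (‖y - x‖ * M ^ (m - 1)) ^ ((m : ℝ)⁻¹)) := by
      have : (0 : ℝ) ≤ (m : ℝ)⁻¹ := by positivity
      fun_prop (disch := positivity)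
    have h2 := h1.tendsto x
    rw [sub_self, norm_zero, zero_mul, Real.zero_rpow (by positivity), mul_zero] at h2
    exact h2.mono_left nhdsWithin_le_nhds
  refine squeeze_zero' (Eventually.of_forall fun _ => dist_nonneg) ?_ hlim
  have hball : ∀ᶠ y in 𝓝[Orthant m] x, ‖y - x‖ < 1 := by
    have : ∀ᶠ y in 𝓝 x, ‖y - x‖ < 1 := by
      have := Metric.ball_mem_nhds x one_pos
      filter_upwards [this] with y hy
      rwa [← dist_eq_norm]
    exact this.filter_mono nhdsWithin_le_nhds
  filter_upwards [hball, self_mem_nhdsWithin] with y hy hyO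
  have hinf : x ⊓ y ∈ Orthant m := fun i => le_inf (hx i) (hyO i)
  have hdiff : ∀ i, (x ⊔ y) i - (x ⊓ y) i ≤ ‖y - x‖ := by
    intro i
    have h1 : |y i - x i| ≤ ‖y - x‖ := by
      have := norm_le_pi_norm (y - x) i
      simpa using this
    simp only [Pi.sup_apply, Pi.inf_apply]
    rcases le_total (x i) (y i) with h | h
    · rw [sup_eq_right.2 h, inf_eq_left.2 h]
      rwa [abs_of_nonneg (by linarith)] at h1
    · rw [sup_eq_left.2 h, inf_eq_right.2 h]
      rw [abs_of_nonpos (by linarith)] at h1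
      linarith
  have hle : ∀ i, (x ⊔ y) i ≤ M := by
    intro i
    have h1 : x i ≤ ‖x‖ := (le_abs_self _).trans (norm_le_pi_norm x i)
    have h2 : |y i - x i| ≤ ‖y - x‖ := by
      have := norm_le_pi_norm (y - x) i
      simpa using this
    have h3 := (abs_le.1 h2).2
    simp only [Pi.sup_apply]
    exact sup_le (by linarith) (by linarith)
  have h1 := modulus hm hk hu0 hinf (x' := x ⊔ y) (inf_le_left.trans le_sup_left)
    hle hdiff
  have hxO : x ⊔ y ∈ Orthant m := orth_le hx le_sup_left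
  have a1 := hS.1 _ hinf x inf_le_left
  have a2 := hS.1 _ hinf y inf_le_right
  have a3 := hS.1 x hx (x ⊔ y) le_sup_left
  have a4 := hS.1 y hyO (x ⊔ y) le_sup_right
  rw [Real.dist_eq, abs_le]
  constructor <;> linarith

end Perron

/-- a nonnegative linear form that dominates `k` times the geometric mean has coefficients whose
product is at least `(k / m) ^ m` -/
lemma prod_ge (hm : 1 ≤ m) {k : ℝ} (hk : 0 < k) {p : Fin m → ℝ}
    (h : ∀ v : Fin m → ℝ, (∀ i, 0 < v i) → k * gm v ≤ ∑ i, p i * v i) :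
    (k / m) ^ m ≤ ∏ i, p i := by
  have hm0 : (0 : ℝ) < m := by exact_mod_cast hm
  have hpos : ∀ i, 0 < p i := by
    intro i
    by_contra hcon
    push Not at hcon
    set A : ℝ := ∑ j ∈ Finset.univ.erase i, p j with hA
    -- choose `t` with `k t^(1/m) > A`
    obtain ⟨t, ht0, ht⟩ : ∃ t : ℝ, 0 < t ∧ A < k * t ^ ((m : ℝ)⁻¹) := by
      have h1 : Tendsto (fun t : ℝ => k * t ^ ((m : ℝ)⁻¹)) atTop atTop :=
        (tendsto_rpow_atTop (by positivity)).const_mul_atTop hk
      obtain ⟨t, ht1, ht2⟩ := ((h1.eventually_gt_atTop A).and (eventually_gt_atTop 0)).exists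
      exact ⟨t, ht2, ht1⟩
    have h1 := h (Function.update (fun _ => (1 : ℝ)) i t) (fun j => by
      by_cases hj : j = i
      · subst hj; simpa using ht0
      · rw [Function.update_of_ne hj]; exact one_pos)
    have h2 : gm (Function.update (fun _ => (1 : ℝ)) i t) = t ^ ((m : ℝ)⁻¹) := by
      unfold gm
      rw [Finset.prod_update_of_mem (Finset.mem_univ i)]
      simp
    have h3 : ∑ j, p j * Function.update (fun _ => (1 : ℝ)) i t j = p i * t + A := by
      rw [← Finset.add_sum_erase Finset.univ _ (Finset.mem_univ i), Function.update_self]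
      congr 1
      refine Finset.sum_congr rfl fun j hj => ?_
      rw [Function.update_of_ne (Finset.ne_of_mem_erase hj), mul_one]
    rw [h2, h3] at h1
    nlinarith
  have h1 := h (fun i => (p i)⁻¹) fun i => inv_pos.2 (hpos i)
  have h2 : ∑ i, p i * (p i)⁻¹ = m := by
    rw [Finset.sum_congr rfl fun i _ => mul_inv_cancel₀ (hpos i).ne']
    simp
  have hP : 0 < ∏ i, p i := Finset.prod_pos fun i _ => hpos i
  have h3 : gm (fun i => (p i)⁻¹) = ((∏ i, p i) ^ ((m : ℝ)⁻¹))⁻¹ := by
    unfold gm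
    rw [Finset.prod_inv_distrib, Real.inv_rpow hP.le]
  rw [h2, h3] at h1
  have h4 : 0 < (∏ i, p i) ^ ((m : ℝ)⁻¹) := Real.rpow_pos_of_pos hP _
  have h5 : k / m ≤ (∏ i, p i) ^ ((m : ℝ)⁻¹) := by
    rw [div_le_iff₀ hm0]
    rw [← div_eq_mul_inv, div_le_iff₀ h4] at h1
    linarith
  calc (k / m) ^ m ≤ ((∏ i, p i) ^ ((m : ℝ)⁻¹)) ^ m :=
        pow_le_pow_left₀ (by positivity) h5 m
    _ = ∏ i, p i := by
      rw [← Real.rpow_natCast, ← Real.rpow_mul hP.le, inv_mul_cancel₀ hm0.ne', Real.rpow_one]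

/-- **Monotone minorants with large derivative product.**  Let `m ≥ 1` (in particular every
`m ≥ 3`), let `u` be nonnegative and increasing in each variable on the closed orthant, with
`u x = 0` as soon as some coordinate of `x` is `0`, and let `C > 0`.  Then there is a function `ũ`,
continuous on the orthant and increasing in each variable, with `0 ≤ ũ ≤ u`, such that the product
of the partial derivatives of `ũ` is at least `C` at every point of the orthant where `ũ` is
differentiable (relative to the orthant, which at interior points is ordinary differentiability)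
and different from `u`. -/
theorem result (m : ℕ) (hm : 1 ≤ m) (u : (Fin m → ℝ) → ℝ)
    (hu0 : ∀ x ∈ Orthant m, 0 ≤ u x) (hu : IncreasingInEach u)
    (_hub : ∀ x ∈ Orthant m, (∃ i, x i = 0) → u x = 0) (C : ℝ) (hC : 0 < C) :
    ∃ w : (Fin m → ℝ) → ℝ, ContinuousOn w (Orthant m) ∧ IncreasingInEach w ∧
      (∀ x ∈ Orthant m, 0 ≤ w x ∧ w x ≤ u x) ∧
      ∀ x ∈ Orthant m, ∀ L : (Fin m → ℝ) →L[ℝ] ℝ, HasFDerivWithinAt w L (Orthant m) x →
        w x ≠ u x → C ≤ ∏ i, L (Pi.single i 1) := by
  have hm0 : (0 : ℝ) < m := by exact_mod_cast hm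
  set k : ℝ := m * C ^ ((m : ℝ)⁻¹) with hk
  have hk0 : 0 < k := by positivity
  have hS := sup_mem (k := k) hu0
  have hum := mono_of_each hu
  refine ⟨sup u k, continuousOn_sup hm hk0 hu0, ?_, hS.2.1, ?_⟩
  · intro x hx i t ht
    exact hS.1 x hx _ (by
      intro j
      by_cases hj : j = i
      · subst hj; rw [Function.update_self]; exact ht
      · rw [Function.update_of_ne hj])
  · intro x hx L hL hne
    have hlt : sup u k x < u x := lt_of_le_of_ne (hS.2.1 x hx).2 hne
    have hkm : (k / m) ^ m = C := by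
      rw [hk, mul_div_cancel_left₀ _ hm0.ne', ← Real.rpow_natCast, ← Real.rpow_mul hC.le,
        inv_mul_cancel₀ hm0.ne', Real.rpow_one]
    rw [← hkm]
    apply prod_ge hm hk0
    intro v hv
    have hLv : L v = ∑ i, L (Pi.single i 1) * v i := by
      conv_lhs => rw [← Finset.univ_sum_single v]
      rw [map_sum]
      refine Finset.sum_congr rfl fun i _ => ?_
      have : (Pi.single i (v i) : Fin m → ℝ) = v i • Pi.single i 1 := by
        rw [← Pi.single_smul, smul_eq_mul, mul_one]
      rw [this, map_smul, smul_eq_mul, mul_comm]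
    rw [← hLv]
    -- derivative along the ray
    have hcurve : HasDerivWithinAt (fun s : ℝ => x + s • v) v (Set.Ici 0) 0 := by
      have := ((hasDerivAt_id (0 : ℝ)).smul_const v).const_add x
      simpa using this.hasDerivWithinAt
    have hmaps : Set.MapsTo (fun s : ℝ => x + s • v) (Set.Ici 0) (Orthant m) := by
      intro s hs i
      have : 0 ≤ s * v i := mul_nonneg hs (hv i).le
      simp only [Pi.add_apply, Pi.smul_apply, smul_eq_mul]
      linarith [hx i]
    have hL' : HasFDerivWithinAt (sup u k) L (Orthant m) (x + (0 : ℝ) • v) := by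
      simpa using hL
    have hder : HasDerivWithinAt (fun s : ℝ => sup u k (x + s • v)) (L v) (Set.Ici 0) 0 := by
      have h := HasFDerivWithinAt.comp_hasDerivWithinAt (l := sup u k) (l' := L)
        (f := fun s : ℝ => x + s • v) (0 : ℝ) hL' hcurve hmaps
      exact h
    rw [hasDerivWithinAt_iff_tendsto_slope] at hder
    have hIci : Set.Ici (0 : ℝ) \ {0} = Set.Ioi 0 := by
      ext s
      simp only [Set.mem_sdiff, Set.mem_Ici, Set.mem_singleton_iff, Set.mem_Ioi]
      exact ⟨fun h => lt_of_le_of_ne h.1 (Ne.symm h.2), fun h => ⟨h.le, h.ne'⟩⟩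
    rw [hIci] at hder
    refine ge_of_tendsto hder ?_
    have hgv : 0 ≤ gm v := gm_nonneg fun i => (hv i).le
    have hsmall : ∀ᶠ s : ℝ in 𝓝[>] 0, s * (k * gm v) < u x - sup u k x := by
      have h1 : Tendsto (fun s : ℝ => s * (k * gm v)) (𝓝[>] 0) (𝓝 0) := by
        have : Continuous fun s : ℝ => s * (k * gm v) := by fun_prop
        have h2 := this.tendsto 0
        rw [zero_mul] at h2
        exact h2.mono_left nhdsWithin_le_nhds
      exact h1.eventually (gt_mem_nhds (by linarith))
    filter_upwards [hsmall, self_mem_nhdsWithin] with s hs hs0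
    have hs0' : 0 < s := hs0
    have hle : x ≤ x + s • v := fun i => by
      have : 0 ≤ s * v i := mul_nonneg hs0'.le (hv i).le
      simp only [Pi.add_apply, Pi.smul_apply, smul_eq_mul]
      linarith
    have h1 := lift hm hk0.le hum hu0 hx hle
    rw [add_sub_cancel_left, gm_smul hm hs0'.le fun i => (hv i).le] at h1
    have h2 : k * (s * gm v) = s * (k * gm v) := by ring
    rw [h2, min_eq_left (by linarith)] at h1
    rw [slope_def_field]
    simp only [sub_zero, zero_smul, add_zero]
    rw [le_div_iff₀ hs0']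
    linarith

end Pool.Agent.Results.MP_b39627_an.MonotoneMinorant
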